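import Mathlib

/-!
# Two copies of the complete 3-graph on four points: the case of Turan's numbers: definitions of the statement
-/

open Finset

namespace Pool.H67.MV.ErdosVersusTuran

/-- All members of `H` are triples, so `H` is (the edge set of) a 3-graph on `Fin n`. -/
def IsThreeGraph {n : ℕ} (H : Finset (Finset (Fin n))) : Prop := ∀ e ∈ H, e.card = 3

/-- The copies in `H` of the complete 3-graph on `k` points. -/
def copies {n : ℕ} (k : ℕ) (H : Finset (Finset (Fin n))) : Finset (Finset (Fin n)) :=
  ((univ : Finset (Fin n)).powersetCard k).filter (fun S => S.powersetCard 3 ⊆ H)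

/-- The Turan number: the largest number of edges of a 3-graph on `n` points without a copy of
the complete 3-graph on `k` points. -/
noncomputable def t3 (n k : ℕ) : ℕ :=
  sSup {t | ∃ H : Finset (Finset (Fin n)), IsThreeGraph H ∧ copies k H = ∅ ∧ H.card = t}

/-- The statement of Erdos for given `n` and `k`: every 3-graph on `n` points with one edge more
than the Turan number has at least two copies. -/
def TwoCopies (n k : ℕ) : Prop :=
  ∀ H : Finset (Finset (Fin n)), IsThreeGraph H → H.card = t3 n k + 1 → 2 ≤ (copies k H).card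

/-- The number conjectured by Turan for `k = 4`: for `m = n / 3` it is
`m ^ 2 (5 m - 3) / 2`, `m (5 m ^ 2 + 2 m - 1) / 2`, `m (m + 1) (5 m + 2) / 2` for
`n = 3 m`, `3 m + 1`, `3 m + 2`. -/
def turan (n : ℕ) : ℕ :=
  if n % 3 = 0 then (n / 3) ^ 2 * (5 * (n / 3) - 3) / 2
  else if n % 3 = 1 then (n / 3) * (5 * (n / 3) ^ 2 + 2 * (n / 3) - 1) / 2
  else (n / 3) * (n / 3 + 1) * (5 * (n / 3) + 2) / 2

end Pool.H67.MV.ErdosVersusTuran
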