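import Mathlib
import Pool.Agent.H67.MV.ErdosVersusTuranDefs

/-!
# Two copies of the complete 3-graph on four points: the case of Turan's numbers: the proof
-/

open Finset

namespace Pool.H67.MV.ErdosVersusTuran

section Basics

variable {n k : ℕ}

lemma mem_copies {H : Finset (Finset (Fin n))} {S : Finset (Fin n)} :
    S ∈ copies k H ↔ S.card = k ∧ ∀ e, e ⊆ S → e.card = 3 → e ∈ H := by
  simp only [copies, mem_filter, mem_powersetCard, subset_univ, true_and]
  constructor
  · rintro ⟨h1, h2⟩
    exact ⟨h1, fun e he hc => h2 (mem_powersetCard.2 ⟨he, hc⟩)⟩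
  · rintro ⟨h1, h2⟩
    exact ⟨h1, fun e he => h2 e (mem_powersetCard.1 he).1 (mem_powersetCard.1 he).2⟩

lemma copies_mono {H H' : Finset (Finset (Fin n))} (h : H ⊆ H') : copies k H ⊆ copies k H' := by
  intro S hS
  rw [mem_copies] at hS ⊢
  exact ⟨hS.1, fun e he hc => h (hS.2 e he hc)⟩

lemma bdd (n k : ℕ) :
    BddAbove {t | ∃ H : Finset (Finset (Fin n)), IsThreeGraph H ∧ copies k H = ∅ ∧ H.card = t} :=
  ⟨Fintype.card (Finset (Fin n)), by
    rintro t ⟨H, -, -, rfl⟩
    exact card_le_univ H⟩

lemma nonempty3 (n k : ℕ) (hk : 3 ≤ k) :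
    {t | ∃ H : Finset (Finset (Fin n)), IsThreeGraph H ∧ copies k H = ∅ ∧ H.card = t}.Nonempty := by
  refine ⟨0, ∅, by intro e he; simp at he, ?_, rfl⟩
  rw [eq_empty_iff_forall_notMem]
  intro S hS
  rw [mem_copies] at hS
  obtain ⟨e, he, hc⟩ := exists_subset_card_eq (s := S) (n := 3) (by omega)
  exact absurd (hS.2 e he hc) (by simp)

lemma le_t3 {H : Finset (Finset (Fin n))} (h3 : IsThreeGraph H) (h : copies k H = ∅) :
    H.card ≤ t3 n k :=
  le_csSup (bdd n k) ⟨H, h3, h, rfl⟩

/-- Transfer to an arbitrary type with `n` elements. -/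
lemma le_t3_of_card {V : Type} [Fintype V] [DecidableEq V] (hV : Fintype.card V = n)
    (H : Finset (Finset V)) (h3 : ∀ e ∈ H, e.card = 3)
    (h : ∀ S : Finset V, S.card = k → ∃ e, e ⊆ S ∧ e.card = 3 ∧ e ∉ H) : H.card ≤ t3 n k := by
  classical
  let f : V ≃ Fin n := Fintype.equivFinOfCardEq hV
  let g : Finset V ≃ Finset (Fin n) := f.finsetCongr
  have hg : ∀ e : Finset V, (g e).card = e.card := by
    intro e
    simp [g, Equiv.finsetCongr]
  have hc : (H.map g.toEmbedding).card = H.card := card_map _
  rw [← hc]
  apply le_t3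
  · intro e he
    rw [mem_map] at he
    obtain ⟨a, ha, rfl⟩ := he
    rw [Equiv.coe_toEmbedding, hg]
    exact h3 a ha
  · rw [eq_empty_iff_forall_notMem]
    intro S hS
    rw [mem_copies] at hS
    obtain ⟨e, he, hec, heH⟩ := h (g.symm S) (by rw [← hg, Equiv.apply_symm_apply]; exact hS.1)
    apply heH
    have h1 : g e ⊆ S := by
      have : g e ⊆ g (g.symm S) := by
        simpa [g, Equiv.finsetCongr] using he
      rwa [Equiv.apply_symm_apply] at this
    have h2 := hS.2 (g e) h1 (by rw [hg]; exact hec)
    rw [mem_map] at h2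
    obtain ⟨a, ha, hae⟩ := h2
    rw [Equiv.coe_toEmbedding] at hae
    rwa [← g.injective hae]

lemma le_t3_of_subset (m : ℕ) (W : Finset (Fin n)) (hW : W.card = m)
    (G : Finset (Finset (Fin n))) (h3 : ∀ e ∈ G, e.card = 3) (hG : ∀ e ∈ G, e ⊆ W)
    (h : ∀ S : Finset (Fin n), S ⊆ W → S.card = k → ∃ e, e ⊆ S ∧ e.card = 3 ∧ e ∉ G) :
    G.card ≤ t3 m k := by
  classical
  let p : Fin n → Prop := fun x => x ∈ W
  have hback : ∀ e : Finset (Fin n), e ⊆ W →
      (e.subtype p).map (Function.Embedding.subtype p) = e := by
    intro e he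
    rw [Finset.subtype_map]
    exact filter_true_of_mem (fun x hx => he hx)
  have hcard : ∀ e : Finset (Fin n), e ⊆ W → (e.subtype p).card = e.card := by
    intro e he
    rw [← card_map (Function.Embedding.subtype p), hback e he]
  have hinj : ∀ e e' : Finset (Fin n), e ⊆ W → e' ⊆ W → e.subtype p = e'.subtype p → e = e' := by
    intro e e' he he' h
    rw [← hback e he, ← hback e' he', h]
  have hc : (G.image (fun e => e.subtype p)).card = G.card :=
    card_image_of_injOn (fun e he e' he' h => hinj e e' (hG e he) (hG e' he') h)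
  rw [← hc]
  apply le_t3_of_card (V := {x // p x})
  · rw [Fintype.card_subtype]
    have : univ.filter p = W := by
      ext x
      simp [p]
    rw [this, hW]
  · intro e he
    rw [mem_image] at he
    obtain ⟨a, ha, rfl⟩ := he
    rw [hcard a (hG a ha), h3 a ha]
  · intro S hS
    have hS' : S.map (Function.Embedding.subtype p) ⊆ W := by
      intro x hx
      rw [mem_map] at hx
      obtain ⟨y, -, rfl⟩ := hx
      exact y.2
    obtain ⟨e, he, hec, heG⟩ := h _ hS' (by rw [card_map, hS])
    have heW : e ⊆ W := he.trans hS'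
    refine ⟨e.subtype p, ?_, ?_, ?_⟩
    · intro x hx
      rw [mem_subtype] at hx
      have := he hx
      rw [mem_map] at this
      obtain ⟨y, hy, hyx⟩ := this
      have : y = x := Subtype.ext hyx
      rwa [← this]
    · rw [hcard e heW, hec]
    · intro hmem
      rw [mem_image] at hmem
      obtain ⟨a, ha, hae⟩ := hmem
      exact heG (hinj a e (hG a ha) heW hae ▸ ha)

/-- The main averaging inequality. -/
lemma unique_bound (hk : 3 ≤ k) {H : Finset (Finset (Fin n))} (h3 : IsThreeGraph H)
    (hH : H.card = t3 n k + 1) (h1 : (copies k H).card = 1) :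
    (n - 3) * t3 n k + (k - 3) ≤ n * t3 (n - 1) k := by
  classical
  obtain ⟨S, hS⟩ := card_eq_one.1 h1
  have hSm : S ∈ copies k H := by rw [hS]; exact mem_singleton_self S
  have hSc := (mem_copies.1 hSm).1
  obtain ⟨e0, he0, he0c⟩ := exists_subset_card_eq (s := S) (n := 3) (by omega)
  have he0H : e0 ∈ H := (mem_copies.1 hSm).2 e0 he0 he0c
  have hkn : k ≤ n := by
    have := card_le_univ S
    rw [Fintype.card_fin] at this
    omega
  have key : ∀ v : Fin n, (H.filter (fun e => v ∉ e)).card ≤
      t3 (n - 1) k + (if v ∈ S then 0 else 1) := by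
    intro v
    have hWc : (univ.erase v : Finset (Fin n)).card = n - 1 := by
      rw [card_erase_of_mem (mem_univ v), card_univ, Fintype.card_fin]
    by_cases hv : v ∈ S
    · rw [if_pos hv, add_zero]
      apply le_t3_of_subset (n - 1) (univ.erase v) hWc
      · intro e he
        exact h3 e (mem_filter.1 he).1
      · intro e he x hx
        rw [mem_erase]
        refine ⟨?_, mem_univ x⟩
        rintro rfl
        exact (mem_filter.1 he).2 hx
      · intro T hT hTc
        by_contra hcon
        push Not at hcon
        have hTm : T ∈ copies k H := by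
          rw [mem_copies]
          exact ⟨hTc, fun e he hec => (mem_filter.1 (hcon e he hec)).1⟩
        rw [hS, mem_singleton] at hTm
        subst hTm
        have := hT hv
        rw [mem_erase] at this
        exact this.1 rfl
    · rw [if_neg hv]
      have hle : (H.filter (fun e => v ∉ e)).card ≤
          ((H.filter (fun e => v ∉ e)).erase e0).card + 1 := by
        rw [← tsub_le_iff_right]
        exact pred_card_le_card_erase
      refine hle.trans (Nat.add_le_add_right ?_ 1)
      apply le_t3_of_subset (n - 1) (univ.erase v) hWc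
      · intro e he
        exact h3 e (mem_filter.1 (mem_of_mem_erase he)).1
      · intro e he x hx
        rw [mem_erase]
        refine ⟨?_, mem_univ x⟩
        rintro rfl
        exact (mem_filter.1 (mem_of_mem_erase he)).2 hx
      · intro T hT hTc
        by_contra hcon
        push Not at hcon
        have hTm : T ∈ copies k H := by
          rw [mem_copies]
          exact ⟨hTc, fun e he hec => (mem_filter.1 (mem_of_mem_erase (hcon e he hec))).1⟩
        rw [hS, mem_singleton] at hTm
        subst hTm
        exact absurd (hcon e0 he0 he0c) (by simp)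
  have hsum : ∑ v : Fin n, (H.filter (fun e => v ∉ e)).card = (n - 3) * H.card := by
    simp only [card_filter]
    rw [sum_comm]
    have : ∀ e ∈ H, (∑ v : Fin n, if v ∉ e then 1 else 0) = n - 3 := by
      intro e he
      rw [← card_filter]
      have h2 : (univ.filter (fun v => v ∉ e) : Finset (Fin n)) = eᶜ := by
        ext x
        simp
      rw [h2, card_compl, Fintype.card_fin, h3 e he]
    rw [sum_congr rfl this, sum_const, smul_eq_mul, mul_comm]
  have hsum2 : ∑ v : Fin n, (t3 (n - 1) k + (if v ∈ S then 0 else 1)) =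
      n * t3 (n - 1) k + (n - k) := by
    rw [sum_add_distrib, sum_const, card_univ, Fintype.card_fin, smul_eq_mul]
    congr 1
    have h2 : ∀ v : Fin n, (if v ∈ S then 0 else 1) = (if v ∉ S then 1 else 0) := by
      intro v
      by_cases hv : v ∈ S <;> simp [hv]
    rw [sum_congr rfl (fun v _ => h2 v), ← card_filter]
    have h3 : (univ.filter (fun v => v ∉ S) : Finset (Fin n)) = Sᶜ := by
      ext x
      simp
    rw [h3, card_compl, Fintype.card_fin, hSc]
  have hfin : (n - 3) * H.card ≤ n * t3 (n - 1) k + (n - k) := by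
    rw [← hsum, ← hsum2]
    exact sum_le_sum (fun v _ => key v)
  rw [hH, mul_add, mul_one] at hfin
  omega

end Basics

section Turan

variable {n : ℕ}

/-- The admissible distributions of a triple over the three classes. -/
def Good (a b d : ℕ) : Prop :=
  (a = 1 ∧ b = 1 ∧ d = 1) ∨ (a = 2 ∧ b = 1 ∧ d = 0) ∨ (a = 0 ∧ b = 2 ∧ d = 1) ∨
    (a = 1 ∧ b = 0 ∧ d = 2)

instance (a b d : ℕ) : Decidable (Good a b d) := by
  unfold Good
  infer_instance

/-- The 3-graph of Turan with classes `A`, `B`, `C`. -/
def Tur (A B C : Finset (Fin n)) : Finset (Finset (Fin n)) :=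
  univ.filter (fun e => Good (e ∩ A).card (e ∩ B).card (e ∩ C).card)

lemma mem_Tur {A B C e : Finset (Fin n)} :
    e ∈ Tur A B C ↔ Good (e ∩ A).card (e ∩ B).card (e ∩ C).card := by
  simp [Tur]

/-- Three disjoint classes which cover everything. -/
structure Part (A B C : Finset (Fin n)) : Prop where
  ab : Disjoint A B
  ac : Disjoint A C
  bc : Disjoint B C
  un : ∀ x, x ∈ A ∨ x ∈ B ∨ x ∈ C

variable {A B C : Finset (Fin n)}

lemma Part.split (h : Part A B C) (e : Finset (Fin n)) :
    e = (e ∩ A) ∪ ((e ∩ B) ∪ (e ∩ C)) := by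
  ext x
  simp only [mem_union, mem_inter]
  have := h.un x
  tauto

lemma Part.card_split (h : Part A B C) (e : Finset (Fin n)) :
    e.card = (e ∩ A).card + (e ∩ B).card + (e ∩ C).card := by
  conv_lhs => rw [h.split e]
  have h1 : Disjoint (e ∩ B) (e ∩ C) := h.bc.mono inter_subset_right inter_subset_right
  have h2 : Disjoint (e ∩ A) ((e ∩ B) ∪ (e ∩ C)) := by
    rw [disjoint_union_right]
    exact ⟨h.ab.mono inter_subset_right inter_subset_right,
      h.ac.mono inter_subset_right inter_subset_right⟩
  rw [card_union_of_disjoint h2, card_union_of_disjoint h1, add_assoc]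

lemma card_type (h : Part A B C) (i j l : ℕ) :
    (univ.filter (fun e : Finset (Fin n) =>
      (e ∩ A).card = i ∧ (e ∩ B).card = j ∧ (e ∩ C).card = l)).card =
      A.card.choose i * (B.card.choose j * C.card.choose l) := by
  rw [← card_powersetCard, ← card_powersetCard, ← card_powersetCard, ← card_product,
    ← card_product]
  refine card_nbij' (fun e => (e ∩ A, e ∩ B, e ∩ C)) (fun p => p.1 ∪ (p.2.1 ∪ p.2.2)) ?_ ?_ ?_ ?_
  · intro e he
    simp only [coe_filter, Set.mem_ofPred_eq, mem_univ, true_and] at he
    simp only [coe_product, Set.mem_prod, mem_coe, mem_powersetCard]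
    exact ⟨⟨inter_subset_right, he.1⟩, ⟨inter_subset_right, he.2.1⟩, inter_subset_right, he.2.2⟩
  · rintro ⟨x, y, z⟩ hp
    simp only [coe_product, Set.mem_prod, mem_coe, mem_powersetCard] at hp
    obtain ⟨⟨hx, hxi⟩, ⟨hy, hyi⟩, hz, hzi⟩ := hp
    simp only [coe_filter, Set.mem_ofPred_eq, mem_univ, true_and]
    have e1 : (x ∪ (y ∪ z)) ∩ A = x := by
      ext w
      simp only [mem_inter, mem_union]
      constructor
      · rintro ⟨h1 | h1 | h1, h2⟩
        · exact h1
        · exact absurd (hy h1) (disjoint_left.1 h.ab h2)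
        · exact absurd (hz h1) (disjoint_left.1 h.ac h2)
      · intro hw
        exact ⟨Or.inl hw, hx hw⟩
    have e2 : (x ∪ (y ∪ z)) ∩ B = y := by
      ext w
      simp only [mem_inter, mem_union]
      constructor
      · rintro ⟨h1 | h1 | h1, h2⟩
        · exact absurd h2 (disjoint_left.1 h.ab (hx h1))
        · exact h1
        · exact absurd (hz h1) (disjoint_left.1 h.bc h2)
      · intro hw
        exact ⟨Or.inr (Or.inl hw), hy hw⟩
    have e3 : (x ∪ (y ∪ z)) ∩ C = z := by
      ext w
      simp only [mem_inter, mem_union]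
      constructor
      · rintro ⟨h1 | h1 | h1, h2⟩
        · exact absurd h2 (disjoint_left.1 h.ac (hx h1))
        · exact absurd h2 (disjoint_left.1 h.bc (hy h1))
        · exact h1
      · intro hw
        exact ⟨Or.inr (Or.inr hw), hz hw⟩
    rw [e1, e2, e3]
    exact ⟨hxi, hyi, hzi⟩
  · intro e he
    exact (h.split e).symm
  · rintro ⟨x, y, z⟩ hp
    simp only [coe_product, Set.mem_prod, mem_coe, mem_powersetCard] at hp
    obtain ⟨⟨hx, hxi⟩, ⟨hy, hyi⟩, hz, hzi⟩ := hp
    refine Prod.ext ?_ (Prod.ext ?_ ?_)
    · ext w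
      simp only [mem_inter, mem_union]
      constructor
      · rintro ⟨h1 | h1 | h1, h2⟩
        · exact h1
        · exact absurd (hy h1) (disjoint_left.1 h.ab h2)
        · exact absurd (hz h1) (disjoint_left.1 h.ac h2)
      · intro hw
        exact ⟨Or.inl hw, hx hw⟩
    · ext w
      simp only [mem_inter, mem_union]
      constructor
      · rintro ⟨h1 | h1 | h1, h2⟩
        · exact absurd h2 (disjoint_left.1 h.ab (hx h1))
        · exact h1
        · exact absurd (hz h1) (disjoint_left.1 h.bc h2)
      · intro hw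
        exact ⟨Or.inr (Or.inl hw), hy hw⟩
    · ext w
      simp only [mem_inter, mem_union]
      constructor
      · rintro ⟨h1 | h1 | h1, h2⟩
        · exact absurd h2 (disjoint_left.1 h.ac (hx h1))
        · exact absurd h2 (disjoint_left.1 h.bc (hy h1))
        · exact h1
      · intro hw
        exact ⟨Or.inr (Or.inr hw), hz hw⟩

/-- The number of edges of the 3-graph of Turan. -/
lemma card_Tur (h : Part A B C) :
    (Tur A B C).card = A.card * (B.card * C.card) + A.card.choose 2 * B.card +
      B.card.choose 2 * C.card + A.card * C.card.choose 2 := by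
  have e1 := card_type h 1 1 1
  have e2 := card_type h 2 1 0
  have e3 := card_type h 0 2 1
  have e4 := card_type h 1 0 2
  simp only [Nat.choose_one_right, Nat.choose_zero_right, mul_one, one_mul] at e1 e2 e3 e4
  have hT : Tur A B C =
      (univ.filter (fun e : Finset (Fin n) =>
        (e ∩ A).card = 1 ∧ (e ∩ B).card = 1 ∧ (e ∩ C).card = 1)) ∪
      ((univ.filter (fun e : Finset (Fin n) =>
        (e ∩ A).card = 2 ∧ (e ∩ B).card = 1 ∧ (e ∩ C).card = 0)) ∪
      ((univ.filter (fun e : Finset (Fin n) =>
        (e ∩ A).card = 0 ∧ (e ∩ B).card = 2 ∧ (e ∩ C).card = 1)) ∪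
      (univ.filter (fun e : Finset (Fin n) =>
        (e ∩ A).card = 1 ∧ (e ∩ B).card = 0 ∧ (e ∩ C).card = 2)))) := by
    ext e
    rw [mem_Tur]
    simp only [Good, mem_filter, mem_univ, true_and, mem_union]
  rw [hT, card_union_of_disjoint, card_union_of_disjoint, card_union_of_disjoint, e1, e2, e3, e4]
  · ring
  · rw [disjoint_filter]
    intro e _ h1 h2
    omega
  · rw [disjoint_union_right, disjoint_filter, disjoint_filter]
    refine ⟨fun e _ h1 h2 => by omega, fun e _ h1 h2 => by omega⟩
  · rw [disjoint_union_right, disjoint_union_right, disjoint_filter, disjoint_filter,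
      disjoint_filter]
    refine ⟨fun e _ h1 h2 => by omega, fun e _ h1 h2 => by omega, fun e _ h1 h2 => by omega⟩

lemma Tur_three (h : Part A B C) {e : Finset (Fin n)} (he : e ∈ Tur A B C) : e.card = 3 := by
  rw [mem_Tur] at he
  unfold Good at he
  rw [h.card_split e]
  omega

lemma erase_inter_card {S D : Finset (Fin n)} {x : Fin n} (hx : x ∈ S) :
    ((S.erase x) ∩ D).card = (S ∩ D).card - (if x ∈ D then 1 else 0) := by
  rw [erase_inter]
  by_cases hD : x ∈ D
  · rw [if_pos hD, card_erase_of_mem (mem_inter.2 ⟨hx, hD⟩)]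
  · rw [if_neg hD, erase_eq_of_notMem (fun h => hD (mem_inter.1 h).2), Nat.sub_zero]

/-- The 3-graph of Turan contains no complete 3-graph on four points. -/
lemma Tur_free (h : Part A B C) (S : Finset (Fin n)) (hS : S.card = 4) :
    ∃ e, e ⊆ S ∧ e.card = 3 ∧ e ∉ Tur A B C := by
  by_contra hcon
  push Not at hcon
  have hsp := h.card_split S
  have key : ∀ x ∈ S, Good ((S.erase x) ∩ A).card ((S.erase x) ∩ B).card
      ((S.erase x) ∩ C).card := by
    intro x hx
    have := hcon (S.erase x) (erase_subset x S) (by rw [card_erase_of_mem hx, hS])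
    rwa [mem_Tur] at this
  have kA : 0 < (S ∩ A).card → Good ((S ∩ A).card - 1) (S ∩ B).card (S ∩ C).card := by
    intro hpos
    obtain ⟨x, hx⟩ := card_pos.1 hpos
    rw [mem_inter] at hx
    have := key x hx.1
    rw [erase_inter_card hx.1, erase_inter_card hx.1, erase_inter_card hx.1, if_pos hx.2,
      if_neg (disjoint_left.1 h.ab hx.2), if_neg (disjoint_left.1 h.ac hx.2)] at this
    simpa using this
  have kB : 0 < (S ∩ B).card → Good (S ∩ A).card ((S ∩ B).card - 1) (S ∩ C).card := by
    intro hpos
    obtain ⟨x, hx⟩ := card_pos.1 hpos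
    rw [mem_inter] at hx
    have := key x hx.1
    rw [erase_inter_card hx.1, erase_inter_card hx.1, erase_inter_card hx.1, if_pos hx.2,
      if_neg (fun h' => disjoint_left.1 h.ab h' hx.2),
      if_neg (disjoint_left.1 h.bc hx.2)] at this
    simpa using this
  have kC : 0 < (S ∩ C).card → Good (S ∩ A).card (S ∩ B).card ((S ∩ C).card - 1) := by
    intro hpos
    obtain ⟨x, hx⟩ := card_pos.1 hpos
    rw [mem_inter] at hx
    have := key x hx.1
    rw [erase_inter_card hx.1, erase_inter_card hx.1, erase_inter_card hx.1, if_pos hx.2,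
      if_neg (fun h' => disjoint_left.1 h.ac h' hx.2),
      if_neg (fun h' => disjoint_left.1 h.bc h' hx.2)] at this
    simpa using this
  rw [hS] at hsp
  unfold Good at kA kB kC
  omega

lemma card3 {x y z : Fin n} (h1 : x ≠ y) (h2 : x ≠ z) (h3 : y ≠ z) :
    ({x, y, z} : Finset (Fin n)).card = 3 := by
  rw [card_insert_of_notMem (by simp [h1, h2]), card_insert_of_notMem (by simp [h3]),
    card_singleton]

/-- Exchange inside the 3-graph of Turan: `B.card` edges are replaced by `A.card` edges and
exactly one complete 3-graph on four points appears. -/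
lemma exists_unique_copy (h : Part A B C) {v w a b : Fin n} (hv : v ∈ A) (hw : w ∈ A)
    (hvw : v ≠ w) (ha : a ∈ C) (hb : b ∈ C) (hab : a ≠ b) :
    ∃ H : Finset (Finset (Fin n)), IsThreeGraph H ∧
      H.card + B.card = (Tur A B C).card + A.card ∧ copies 4 H = {{v, w, a, b}} := by
  classical
  have hvB : v ∉ B := disjoint_left.1 h.ab hv
  have hvC : v ∉ C := disjoint_left.1 h.ac hv
  have hwB : w ∉ B := disjoint_left.1 h.ab hw
  have hwC : w ∉ C := disjoint_left.1 h.ac hw
  have haA : a ∉ A := fun h' => disjoint_left.1 h.ac h' ha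
  have hbA : b ∉ A := fun h' => disjoint_left.1 h.ac h' hb
  have haB : a ∉ B := fun h' => disjoint_left.1 h.bc h' ha
  have hbB : b ∉ B := fun h' => disjoint_left.1 h.bc h' hb
  have hav : a ≠ v := fun h' => haA (h' ▸ hv)
  have haw : a ≠ w := fun h' => haA (h' ▸ hw)
  have hbv : b ≠ v := fun h' => hbA (h' ▸ hv)
  have hbw : b ≠ w := fun h' => hbA (h' ▸ hw)
  let F : Fin n → Finset (Fin n) := fun x => {v, w, x}
  let X : Finset (Fin n) := ((A.erase v).erase w) ∪ {a, b}
  have hXmem : ∀ x, x ∈ X ↔ (x ≠ w ∧ x ≠ v ∧ x ∈ A) ∨ x = a ∨ x = b := by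
    intro x
    simp only [X, mem_union, mem_erase, mem_insert, mem_singleton]
  have hXv : ∀ x ∈ X, x ≠ v ∧ x ≠ w := by
    intro x hx
    rcases (hXmem x).1 hx with h1 | rfl | rfl
    · exact ⟨h1.2.1, h1.1⟩
    · exact ⟨hav, haw⟩
    · exact ⟨hbv, hbw⟩
  have hFinj : ∀ x y, x ≠ v → x ≠ w → F x = F y → x = y := by
    intro x y h1 h2 h3
    have : x ∈ F y := by
      rw [← h3]
      simp [F]
    simp only [F, mem_insert, mem_singleton] at this
    tauto
  have hXcard : X.card = A.card := by
    have h1 : Disjoint ((A.erase v).erase w) ({a, b} : Finset (Fin n)) := by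
      rw [disjoint_left]
      intro x hx hx'
      rw [mem_erase, mem_erase] at hx
      rw [mem_insert, mem_singleton] at hx'
      rcases hx' with rfl | rfl
      · exact haA hx.2.2
      · exact hbA hx.2.2
    have h2 : 2 ≤ A.card := by
      have : ({v, w} : Finset (Fin n)) ⊆ A := by
        intro x hx
        rw [mem_insert, mem_singleton] at hx
        rcases hx with rfl | rfl
        · exact hv
        · exact hw
      have h3 := card_le_card this
      rwa [card_pair hvw] at h3
    rw [card_union_of_disjoint h1, card_pair hab,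
      card_erase_of_mem (mem_erase.2 ⟨hvw.symm, hw⟩), card_erase_of_mem hv]
    omega
  have hXim : (X.image F).card = A.card := by
    rw [card_image_of_injOn, hXcard]
    intro x hx y hy hxy
    exact hFinj x y (hXv x hx).1 (hXv x hx).2 hxy
  have hBim : (B.image F).card = B.card := by
    apply card_image_of_injOn
    intro x hx y hy hxy
    exact hFinj x y (fun h' => hvB (h' ▸ hx)) (fun h' => hwB (h' ▸ hx)) hxy
  have hTB : (Tur A B C).filter (fun e => v ∈ e ∧ w ∈ e) = B.image F := by
    ext e
    rw [mem_filter, mem_Tur, mem_image]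
    constructor
    · rintro ⟨hg, h1, h2⟩
      have hsub : ({v, w} : Finset (Fin n)) ⊆ e ∩ A := by
        intro x hx
        rw [mem_insert, mem_singleton] at hx
        rcases hx with rfl | rfl
        · exact mem_inter.2 ⟨h1, hv⟩
        · exact mem_inter.2 ⟨h2, hw⟩
      have hle := card_le_card hsub
      rw [card_pair hvw] at hle
      unfold Good at hg
      have hg2 : (e ∩ A).card = 2 ∧ (e ∩ B).card = 1 ∧ (e ∩ C).card = 0 := by omega
      obtain ⟨x, hx⟩ := card_eq_one.1 hg2.2.1
      have hAe : ({v, w} : Finset (Fin n)) = e ∩ A :=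
        eq_of_subset_of_card_le hsub (by rw [card_pair hvw, hg2.1])
      have hCe := card_eq_zero.1 hg2.2.2
      refine ⟨x, ?_, ?_⟩
      · have : x ∈ e ∩ B := by rw [hx]; exact mem_singleton_self x
        exact (mem_inter.1 this).2
      · rw [h.split e, ← hAe, hx, hCe]
        ext y
        simp [F]
    · rintro ⟨x, hx, rfl⟩
      have hxA : x ∉ A := fun h' => disjoint_left.1 h.ab h' hx
      have hxC : x ∉ C := disjoint_left.1 h.bc hx
      refine ⟨?_, by simp [F], by simp [F]⟩
      right; left
      refine ⟨?_, ?_, ?_⟩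
      · simp only [F]
        rw [insert_inter_of_mem hv, insert_inter_of_mem hw, singleton_inter_of_notMem hxA]
        simp [hvw]
      · simp only [F]
        rw [insert_inter_of_notMem hvB, insert_inter_of_notMem hwB, singleton_inter_of_mem hx]
        simp
      · simp only [F]
        rw [insert_inter_of_notMem hvC, insert_inter_of_notMem hwC,
          singleton_inter_of_notMem hxC]
        simp
  let H : Finset (Finset (Fin n)) :=
    ((Tur A B C).filter (fun e => ¬ (v ∈ e ∧ w ∈ e))) ∪ X.image F
  have hHmem : ∀ e, e ∈ H ↔ (e ∈ Tur A B C ∧ ¬ (v ∈ e ∧ w ∈ e)) ∨ ∃ x ∈ X, F x = e := by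
    intro e
    simp only [H, mem_union, mem_filter, mem_image]
  have hHnot : ∀ e, e ∈ H → ¬ (v ∈ e ∧ w ∈ e) → e ∈ Tur A B C := by
    intro e he hn
    rcases (hHmem e).1 he with h1 | ⟨x, -, rfl⟩
    · exact h1.1
    · exact absurd (by simp [F]) hn
  have hHyes : ∀ x, x ≠ v → x ≠ w → F x ∈ H → x ∈ X := by
    intro x h1 h2 he
    rcases (hHmem _).1 he with h3 | ⟨y, hy, hxy⟩
    · exact absurd (by simp [F]) h3.2
    · rw [hFinj x y h1 h2 hxy.symm]
      exact hy
  refine ⟨H, ?_, ?_, ?_⟩
  · intro e he
    rcases (hHmem e).1 he with h1 | ⟨x, hx, rfl⟩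
    · exact Tur_three h h1.1
    · exact card3 hvw (hXv x hx).1.symm (hXv x hx).2.symm
  · have hd : Disjoint ((Tur A B C).filter (fun e => ¬ (v ∈ e ∧ w ∈ e))) (X.image F) := by
      rw [disjoint_left]
      intro e he he'
      rw [mem_image] at he'
      obtain ⟨x, -, rfl⟩ := he'
      exact (mem_filter.1 he).2 (by simp [F])
    have h1 : H.card = ((Tur A B C).filter (fun e => ¬ (v ∈ e ∧ w ∈ e))).card + A.card := by
      simp only [H]
      rw [card_union_of_disjoint hd, hXim]
    have h2 := card_filter_add_card_filter_not (s := Tur A B C) (fun e => v ∈ e ∧ w ∈ e)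
    rw [hTB, hBim] at h2
    omega
  · rw [eq_singleton_iff_unique_mem]
    constructor
    · rw [mem_copies]
      have hc4 : ({v, w, a, b} : Finset (Fin n)).card = 4 := by
        rw [card_insert_of_notMem (by simp [hvw, hav.symm, hbv.symm]), card3 haw.symm hbw.symm hab]
      refine ⟨hc4, ?_⟩
      intro e he hec
      have hne : ∃ y, y ∈ ({v, w, a, b} : Finset (Fin n)) ∧ y ∉ e := by
        by_contra hcon
        push Not at hcon
        have h1 := card_le_card (show ({v, w, a, b} : Finset (Fin n)) ⊆ e from fun y hy => hcon y hy)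
        omega
      obtain ⟨y, hy, hye⟩ := hne
      have heq : e = ({v, w, a, b} : Finset (Fin n)).erase y := by
        apply eq_of_subset_of_card_le
        · intro z hz
          rw [mem_erase]
          refine ⟨?_, he hz⟩
          rintro rfl
          exact hye hz
        · rw [card_erase_of_mem hy, hc4, hec]
      rw [hHmem]
      simp only [mem_insert, mem_singleton] at hy
      rcases hy with rfl | rfl | rfl | rfl
      · left
        have : e = {w, a, b} := by
          rw [heq]
          ext z
          simp only [mem_erase, mem_insert, mem_singleton]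
          constructor
          · rintro ⟨h1, h2⟩; tauto
          · rintro (rfl | rfl | rfl)
            · exact ⟨hvw.symm, by simp⟩
            · exact ⟨hav, by simp⟩
            · exact ⟨hbv, by simp⟩
        refine ⟨?_, fun h' => hye h'.1⟩
        rw [mem_Tur, this]
        right; right; right
        rw [insert_inter_of_mem hw, insert_inter_of_notMem haA, singleton_inter_of_notMem hbA,
          insert_inter_of_notMem hwB, insert_inter_of_notMem haB, singleton_inter_of_notMem hbB,
          insert_inter_of_notMem hwC, insert_inter_of_mem ha, singleton_inter_of_mem hb]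
        simp [hab]
      · left
        have : e = {v, a, b} := by
          rw [heq]
          ext z
          simp only [mem_erase, mem_insert, mem_singleton]
          constructor
          · rintro ⟨h1, h2⟩; tauto
          · rintro (rfl | rfl | rfl)
            · exact ⟨hvw, by simp⟩
            · exact ⟨haw, by simp⟩
            · exact ⟨hbw, by simp⟩
        refine ⟨?_, fun h' => hye h'.2⟩
        rw [mem_Tur, this]
        right; right; right
        rw [insert_inter_of_mem hv, insert_inter_of_notMem haA, singleton_inter_of_notMem hbA,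
          insert_inter_of_notMem hvB, insert_inter_of_notMem haB, singleton_inter_of_notMem hbB,
          insert_inter_of_notMem hvC, insert_inter_of_mem ha, singleton_inter_of_mem hb]
        simp [hab]
      · right
        refine ⟨b, (hXmem b).2 (Or.inr (Or.inr rfl)), ?_⟩
        rw [heq]
        ext z
        simp only [F, mem_erase, mem_insert, mem_singleton]
        constructor
        · rintro (rfl | rfl | rfl)
          · exact ⟨hav.symm, by simp⟩
          · exact ⟨haw.symm, by simp⟩
          · exact ⟨hab.symm, by simp⟩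
        · rintro ⟨h1, h2⟩; tauto
      · right
        refine ⟨a, (hXmem a).2 (Or.inr (Or.inl rfl)), ?_⟩
        rw [heq]
        ext z
        simp only [F, mem_erase, mem_insert, mem_singleton]
        constructor
        · rintro (rfl | rfl | rfl)
          · exact ⟨hbv.symm, by simp⟩
          · exact ⟨hbw.symm, by simp⟩
          · exact ⟨hab, by simp⟩
        · rintro ⟨h1, h2⟩; tauto
    · intro S hS
      rw [mem_copies] at hS
      obtain ⟨hSc, hSe⟩ := hS
      by_cases hvwS : v ∈ S ∧ w ∈ S
      · obtain ⟨hvS, hwS⟩ := hvwS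
        have h2 : ((S.erase v).erase w).card = 2 := by
          rw [card_erase_of_mem (mem_erase.2 ⟨hvw.symm, hwS⟩), card_erase_of_mem hvS, hSc]
        obtain ⟨x, y, hxy, hSxy⟩ := card_eq_two.1 h2
        have hx' : x ∈ (S.erase v).erase w := by rw [hSxy]; simp
        have hy' : y ∈ (S.erase v).erase w := by rw [hSxy]; simp
        rw [mem_erase, mem_erase] at hx' hy'
        have hxX : x ∈ X := by
          apply hHyes x hx'.2.1 hx'.1
          apply hSe
          · intro z hz
            simp only [F, mem_insert, mem_singleton] at hz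
            rcases hz with rfl | rfl | rfl
            · exact hvS
            · exact hwS
            · exact hx'.2.2
          · exact card3 hvw hx'.2.1.symm hx'.1.symm
        have hyX : y ∈ X := by
          apply hHyes y hy'.2.1 hy'.1
          apply hSe
          · intro z hz
            simp only [F, mem_insert, mem_singleton] at hz
            rcases hz with rfl | rfl | rfl
            · exact hvS
            · exact hwS
            · exact hy'.2.2
          · exact card3 hvw hy'.2.1.symm hy'.1.symm
        have hT : ({v, x, y} : Finset (Fin n)) ∈ Tur A B C := by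
          apply hHnot
          · apply hSe
            · intro z hz
              simp only [mem_insert, mem_singleton] at hz
              rcases hz with rfl | rfl | rfl
              · exact hvS
              · exact hx'.2.2
              · exact hy'.2.2
            · exact card3 hx'.2.1.symm hy'.2.1.symm hxy
          · rintro ⟨-, h3⟩
            simp only [mem_insert, mem_singleton] at h3
            rcases h3 with h3 | h3 | h3
            · exact hvw h3.symm
            · exact hx'.1 h3.symm
            · exact hy'.1 h3.symm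
        rw [mem_Tur] at hT
        have hxab : x = a ∨ x = b := by
          rcases (hXmem x).1 hxX with h3 | h3
          · exfalso
            have hxB : x ∉ B := disjoint_left.1 h.ab h3.2.2
            have hyB : y ∉ B := by
              rcases (hXmem y).1 hyX with h4 | rfl | rfl
              · exact disjoint_left.1 h.ab h4.2.2
              · exact haB
              · exact hbB
            rw [insert_inter_of_mem hv, insert_inter_of_mem h3.2.2,
              insert_inter_of_notMem hvB, insert_inter_of_notMem hxB,
              singleton_inter_of_notMem hyB, card_empty] at hT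
            have h5 : 2 ≤ (insert v (insert x ({y} ∩ A))).card := by
              have : ({v, x} : Finset (Fin n)) ⊆ insert v (insert x ({y} ∩ A)) := by
                intro z hz
                simp only [mem_insert, mem_singleton] at hz ⊢
                tauto
              have h6 := card_le_card this
              rwa [card_pair hx'.2.1.symm] at h6
            unfold Good at hT
            omega
          · exact h3
        have hyab : y = a ∨ y = b := by
          rcases (hXmem y).1 hyX with h3 | h3
          · exfalso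
            have hyB : y ∉ B := disjoint_left.1 h.ab h3.2.2
            have hxB : x ∉ B := by
              rcases hxab with rfl | rfl
              · exact haB
              · exact hbB
            rw [insert_inter_of_mem hv,
              insert_inter_of_notMem hvB, insert_inter_of_notMem hxB,
              singleton_inter_of_notMem hyB, card_empty] at hT
            have h5 : 2 ≤ (insert v ({x, y} ∩ A)).card := by
              have : ({v, y} : Finset (Fin n)) ⊆ insert v ({x, y} ∩ A) := by
                intro z hz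
                simp only [mem_insert, mem_singleton, mem_inter] at hz ⊢
                rcases hz with rfl | rfl
                · left; rfl
                · right; exact ⟨Or.inr rfl, h3.2.2⟩
              have h6 := card_le_card this
              rwa [card_pair hy'.2.1.symm] at h6
            unfold Good at hT
            omega
          · exact h3
        have hSS : S = insert v (insert w {x, y}) := by
          rw [← hSxy, insert_erase (mem_erase.2 ⟨hvw.symm, hwS⟩), insert_erase hvS]
        rw [hSS]
        rcases hxab with rfl | rfl <;> rcases hyab with rfl | rfl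
        · exact absurd rfl hxy
        · rfl
        · rw [pair_comm]
        · exact absurd rfl hxy
      · exfalso
        obtain ⟨e, he, hec, heT⟩ := Tur_free h S hSc
        exact heT (hHnot e (hSe e he hec) (fun h' => hvwS ⟨he h'.1, he h'.2⟩))

end Turan

section Final

/-- Partitions with classes of given sizes. -/
lemma exists_part (p q r : ℕ) : ∃ A B C : Finset (Fin (p + q + r)),
    Part A B C ∧ A.card = p ∧ B.card = q ∧ C.card = r := by
  classical
  obtain ⟨A, -, hA⟩ := exists_subset_card_eq (s := (univ : Finset (Fin (p + q + r)))) (n := p)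
    (by rw [card_univ, Fintype.card_fin]; omega)
  obtain ⟨B, hBA, hB⟩ := exists_subset_card_eq (s := Aᶜ) (n := q)
    (by rw [card_compl, Fintype.card_fin, hA]; omega)
  have hAB : Disjoint A B := by
    rw [disjoint_left]
    intro x hx hx'
    exact (mem_compl.1 (hBA hx')) hx
  refine ⟨A, B, (A ∪ B)ᶜ, ⟨hAB, ?_, ?_, ?_⟩, hA, hB, ?_⟩
  · rw [disjoint_left]
    intro x hx hx'
    exact (mem_compl.1 hx') (mem_union_left _ hx)
  · rw [disjoint_left]
    intro x hx hx'
    exact (mem_compl.1 hx') (mem_union_right _ hx)
  · intro x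
    simp only [mem_compl, mem_union]
    tauto
  · rw [card_compl, Fintype.card_fin, card_union_of_disjoint hAB, hA, hB]
    omega

lemma choose_two (m : ℕ) : 2 * (m.choose 2 : ℤ) = m * (m - 1) := by
  have h := Nat.choose_two_right m
  have h2 : 2 * m.choose 2 = m * (m - 1) := by
    rw [h]
    exact Nat.mul_div_cancel' (Nat.even_mul_pred_self m).two_dvd
  rcases Nat.eq_zero_or_pos m with rfl | hm
  · simp
  · have : ((m - 1 : ℕ) : ℤ) = (m : ℤ) - 1 := by push_cast [Nat.cast_sub hm]; ring
    rw [← this]
    exact_mod_cast h2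

lemma turan_zero (m : ℕ) : 2 * (turan (3 * m) : ℤ) = 5 * m ^ 3 - 3 * m ^ 2 := by
  have h1 : (3 * m) % 3 = 0 := by omega
  have h2 : (3 * m) / 3 = m := by omega
  unfold turan
  rw [if_pos h1, h2]
  rcases Nat.eq_zero_or_pos m with rfl | hm
  · simp
  · have hev : 2 ∣ m ^ 2 * (5 * m - 3) := by
      rcases Nat.even_or_odd' m with ⟨k, rfl | rfl⟩
      · exact Dvd.dvd.mul_right (by rw [pow_two]; exact Dvd.dvd.mul_right ⟨k, rfl⟩ _) _
      · exact Dvd.dvd.mul_left ⟨5 * k + 1, by omega⟩ _
    have h3 : 2 * (m ^ 2 * (5 * m - 3) / 2) = m ^ 2 * (5 * m - 3) := Nat.mul_div_cancel' hev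
    have h4 : (2 * (m ^ 2 * (5 * m - 3) / 2) : ℕ) = ((m ^ 2 * (5 * m - 3) : ℕ) : ℤ) := by
      exact_mod_cast h3
    have h5 : ((5 * m - 3 : ℕ) : ℤ) = 5 * m - 3 := by
      rw [Nat.cast_sub (by omega)]
      push_cast
      ring
    push_cast at h4 ⊢
    rw [h4, h5]
    ring

lemma turan_one (m : ℕ) : 2 * (turan (3 * m + 1) : ℤ) = 5 * m ^ 3 + 2 * m ^ 2 - m := by
  have h0 : ¬ (3 * m + 1) % 3 = 0 := by omega
  have h1 : (3 * m + 1) % 3 = 1 := by omega
  have h2 : (3 * m + 1) / 3 = m := by omega
  unfold turan
  rw [if_neg h0, if_pos h1, h2]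
  rcases Nat.eq_zero_or_pos m with rfl | hm
  · simp
  · have hev : 2 ∣ m * (5 * m ^ 2 + 2 * m - 1) := by
      rcases Nat.even_or_odd' m with ⟨k, rfl | rfl⟩
      · exact Dvd.dvd.mul_right ⟨k, rfl⟩ _
      · refine Dvd.dvd.mul_left ⟨10 * k ^ 2 + 12 * k + 3, ?_⟩ _
        have : 5 * (2 * k + 1) ^ 2 + 2 * (2 * k + 1) = 2 * (10 * k ^ 2 + 12 * k + 3) + 1 := by ring
        omega
    have h3 : 2 * (m * (5 * m ^ 2 + 2 * m - 1) / 2) = m * (5 * m ^ 2 + 2 * m - 1) :=
      Nat.mul_div_cancel' hev
    have h4 : (2 * (m * (5 * m ^ 2 + 2 * m - 1) / 2) : ℕ) =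
        ((m * (5 * m ^ 2 + 2 * m - 1) : ℕ) : ℤ) := by
      exact_mod_cast h3
    have h5 : ((5 * m ^ 2 + 2 * m - 1 : ℕ) : ℤ) = 5 * m ^ 2 + 2 * m - 1 := by
      rw [Nat.cast_sub (by nlinarith)]
      push_cast
      ring
    push_cast at h4 ⊢
    rw [h4, h5]
    ring

lemma turan_two (m : ℕ) : 2 * (turan (3 * m + 2) : ℤ) = 5 * m ^ 3 + 7 * m ^ 2 + 2 * m := by
  have h0 : ¬ (3 * m + 2) % 3 = 0 := by omega
  have h1 : ¬ (3 * m + 2) % 3 = 1 := by omega
  have h2 : (3 * m + 2) / 3 = m := by omega
  unfold turan
  rw [if_neg h0, if_neg h1, h2]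
  have hev : 2 ∣ m * (m + 1) * (5 * m + 2) :=
    Dvd.dvd.mul_right (Nat.even_mul_succ_self m).two_dvd _
  have h3 : 2 * (m * (m + 1) * (5 * m + 2) / 2) = m * (m + 1) * (5 * m + 2) :=
    Nat.mul_div_cancel' hev
  have h4 : (2 * (m * (m + 1) * (5 * m + 2) / 2) : ℕ) =
      ((m * (m + 1) * (5 * m + 2) : ℕ) : ℤ) := by
    exact_mod_cast h3
  push_cast at h4 ⊢
  rw [h4]
  ring

/-- The construction of Turan gives the lower bound for the Turan numbers. -/
lemma Tur_le_t3 {n : ℕ} {A B C : Finset (Fin n)} (h : Part A B C) :
    (Tur A B C).card ≤ t3 n 4 := by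
  apply le_t3
  · intro e he
    exact Tur_three h he
  · rw [eq_empty_iff_forall_notMem]
    intro S hS
    rw [mem_copies] at hS
    obtain ⟨e, he, hec, heT⟩ := Tur_free h S hS.1
    exact heT (hS.2 e he hec)

lemma turan_le (m : ℕ) : turan (3 * m) ≤ t3 (3 * m) 4 := by
  obtain ⟨A, B, C, h, hA, hB, hC⟩ := exists_part m m m
  have h1 := Tur_le_t3 h
  rw [card_Tur h, hA, hB, hC] at h1
  have e : m + m + m = 3 * m := by ring
  rw [e] at h1
  have h2 := choose_two m
  have h3 := turan_zero m
  have h4 : (2 * (m * (m * m) + m.choose 2 * m + m.choose 2 * m + m * m.choose 2) : ℤ) =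
      2 * (turan (3 * m) : ℤ) := by
    rw [h3]
    linear_combination (3 * (m : ℤ)) * h2
  have h5 : (m * (m * m) + m.choose 2 * m + m.choose 2 * m + m * m.choose 2 : ℕ) =
      turan (3 * m) := by
    have h6 : ((m * (m * m) + m.choose 2 * m + m.choose 2 * m + m * m.choose 2 : ℕ) : ℤ) =
      (turan (3 * m) : ℤ) := by
      push_cast
      linarith
    exact_mod_cast h6
  rwa [h5] at h1

/-- For `n` not divisible by three the construction beats the number of Turan by one and has
exactly one complete 3-graph on four points. -/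
lemma unique_copy {n : ℕ} (hn : 4 ≤ n) (h3 : ¬ 3 ∣ n) :
    ∃ H : Finset (Finset (Fin n)), IsThreeGraph H ∧ H.card = turan n + 1 ∧
      (copies 4 H).card = 1 := by
  rcases Nat.lt_or_ge n 5 with h5 | h5
  · have hn4 : n = 4 := by omega
    subst hn4
    refine ⟨univ.powersetCard 3, ?_, by rw [card_powersetCard]; rfl, ?_⟩
    · intro e he
      exact (mem_powersetCard.1 he).2
    · rw [card_eq_one]
      refine ⟨univ, ?_⟩
      rw [eq_singleton_iff_unique_mem]
      constructor
      · rw [mem_copies]
        exact ⟨by simp, fun e he hec => mem_powersetCard.2 ⟨he, hec⟩⟩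
      · intro S hS
        rw [mem_copies] at hS
        exact (card_eq_iff_eq_univ S).1 (by rw [hS.1, Fintype.card_fin])
  · rcases (show n % 3 = 1 ∨ n % 3 = 2 by omega) with hr | hr
    · obtain ⟨m, rfl⟩ : ∃ m, n = 3 * m + 1 := ⟨n / 3, by omega⟩
      have hm : 2 ≤ m := by omega
      obtain ⟨A, B, C, h, hA, hB, hC⟩ := exists_part (m + 1) m m
      obtain ⟨v, hv, w, hw, hvw⟩ := one_lt_card.1 (show 1 < A.card by omega)
      obtain ⟨a, ha, b, hb, hab⟩ := one_lt_card.1 (show 1 < C.card by omega)
      obtain ⟨H, hH1, hH2, hH3⟩ := exists_unique_copy h hv hw hvw ha hb hab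
      have e : m + 1 + m + m = 3 * m + 1 := by ring
      have hcard : H.card = turan (3 * m + 1) + 1 := by
        rw [card_Tur h, hA, hB, hC] at hH2
        have h2 := choose_two m
        have h2' := choose_two (m + 1)
        have h3 := turan_one m
        have h6 : ((H.card : ℕ) : ℤ) = (turan (3 * m + 1) : ℤ) + 1 := by
          have h7 : ((H.card + m : ℕ) : ℤ) =
            (((m + 1) * (m * m) + (m + 1).choose 2 * m + m.choose 2 * m +
              (m + 1) * m.choose 2 + (m + 1) : ℕ) : ℤ) := by
            exact_mod_cast hH2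
          push_cast at h7 h2'
          nlinarith
        exact_mod_cast h6
      have hcop : (copies 4 H).card = 1 := by rw [hH3, card_singleton]
      clear hH2 hH3 hA hB hC ha hb hab hv hw hvw
      revert H
      rw [e]
      intro H h1 h2 h3
      exact ⟨H, h1, h2, h3⟩
    · obtain ⟨m, rfl⟩ : ∃ m, n = 3 * m + 2 := ⟨n / 3, by omega⟩
      have hm : 1 ≤ m := by omega
      obtain ⟨A, B, C, h, hA, hB, hC⟩ := exists_part (m + 1) m (m + 1)
      obtain ⟨v, hv, w, hw, hvw⟩ := one_lt_card.1 (show 1 < A.card by omega)
      obtain ⟨a, ha, b, hb, hab⟩ := one_lt_card.1 (show 1 < C.card by omega)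
      obtain ⟨H, hH1, hH2, hH3⟩ := exists_unique_copy h hv hw hvw ha hb hab
      have e : m + 1 + m + (m + 1) = 3 * m + 2 := by ring
      have hcard : H.card = turan (3 * m + 2) + 1 := by
        rw [card_Tur h, hA, hB, hC] at hH2
        have h2 := choose_two m
        have h2' := choose_two (m + 1)
        have h3 := turan_two m
        have h6 : ((H.card : ℕ) : ℤ) = (turan (3 * m + 2) : ℤ) + 1 := by
          have h7 : ((H.card + m : ℕ) : ℤ) =
            (((m + 1) * (m * (m + 1)) + (m + 1).choose 2 * m + m.choose 2 * (m + 1) +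
              (m + 1) * (m + 1).choose 2 + (m + 1) : ℕ) : ℤ) := by
            exact_mod_cast hH2
          push_cast at h7 h2'
          nlinarith
        exact_mod_cast h6
      have hcop : (copies 4 H).card = 1 := by rw [hH3, card_singleton]
      clear hH2 hH3 hA hB hC ha hb hab hv hw hvw
      revert H
      rw [e]
      intro H h1 h2 h3
      exact ⟨H, h1, h2, h3⟩

end Final

/-- For `k = 4` and `n` at least four, let `t3 n 4` be the Turan number and `turan n` the number
conjectured by Turan. If three does not divide `n` and `t3 n 4 = turan n`, then some 3-graph on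
`n` points with `t3 n 4 + 1` edges has exactly one complete 3-graph on four points. If three
divides `n` and `t3 (n - 1) 4 = turan (n - 1)`, then every 3-graph on `n` points with
`t3 n 4 + 1` edges has at least two. -/
theorem result : ∀ n : ℕ, 4 ≤ n →
    (¬ 3 ∣ n → t3 n 4 = turan n → ∃ H : Finset (Finset (Fin n)),
      IsThreeGraph H ∧ H.card = t3 n 4 + 1 ∧ (copies 4 H).card = 1) ∧
    (3 ∣ n → t3 (n - 1) 4 = turan (n - 1) → TwoCopies n 4) := by
  intro n hn
  constructor
  · intro h3 ht
    rw [ht]
    exact unique_copy hn h3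
  · intro h3 ht H hH hc
    by_contra hcon
    have h1 : (copies 4 H).card = 1 := by
      have h0 : (copies 4 H).card ≠ 0 := by
        intro h0
        have := le_t3 hH (card_eq_zero.1 h0)
        omega
      omega
    have hb := unique_bound (by norm_num) hH hc h1
    obtain ⟨m, rfl⟩ := h3
    have hm : 2 ≤ m := by omega
    have hle := turan_le m
    rw [ht] at hb
    obtain ⟨l, rfl⟩ : ∃ l, m = l + 1 := ⟨m - 1, by omega⟩
    have e1 : 3 * (l + 1) - 1 = 3 * l + 2 := by omega
    have e2 : 3 * (l + 1) - 3 = 3 * l := by omega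
    rw [e1, e2] at hb
    have h4 := turan_zero (l + 1)
    have h5 := turan_two l
    have h6 : ((3 * l * t3 (3 * (l + 1)) 4 + (4 - 3) : ℕ) : ℤ) ≤
        ((3 * (l + 1) * turan (3 * l + 2) : ℕ) : ℤ) := by
      exact_mod_cast hb
    have h7 : ((turan (3 * (l + 1)) : ℕ) : ℤ) ≤ ((t3 (3 * (l + 1)) 4 : ℕ) : ℤ) := by
      exact_mod_cast hle
    push_cast at h6 h7 h4 h5
    have h8 : (3 * (l : ℤ)) * (turan (3 * (l + 1)) : ℤ) ≤
        (3 * (l : ℤ)) * (t3 (3 * (l + 1)) 4 : ℤ) :=
      mul_le_mul_of_nonneg_left h7 (by positivity)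
    have h9 : 2 * ((3 * (l : ℤ)) * (turan (3 * (l + 1)) : ℤ)) =
        2 * (3 * ((l : ℤ) + 1) * (turan (3 * l + 2) : ℤ)) := by
      linear_combination (3 * (l : ℤ)) * h4 - (3 * ((l : ℤ) + 1)) * h5
    linarith

end Pool.H67.MV.ErdosVersusTuran
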